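import Pool.Agent.Run7.h804.MC.Robust

/-!
# Local colourings

Every vertex `x` colours some of the other vertices: `A x y` says that `x` colours `y`, and `col x y`
is the colour. The pairs of vertices neither of which colours the other have colours as well (`χ`).
A triple is counted (`MC.Tri A col χ`) if two of its vertices have the same colour at the third, or if
no vertex of it colours another and its three pairs have the same colour.

A conflict consists of two vertices `x`, `y` which colour each other, a vertex with the colour of `y`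
at `x` which has not the colour of `x` at `y`, and a vertex with the colour of `x` at `y` which has
not the colour of `y` at `x`. If two vertices colour each other, keep only the one of the two colours
which occurs more often. If there are few conflicts, few of the counted triples are lost, and the
exact bound for oriented graphs (`MC/Core`) applies.
-/

set_option autoImplicit false
open Finset
open scoped Classical

namespace Pool.Agent.Run7.h804.LP

open Pool.Agent.Run7.h804.MC (Tri T mem_T exact_on averaged)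

variable {n : ℕ}

/-- the vertices with the colour `c` at `x` -/
noncomputable def cl (A : Fin n → Fin n → Prop) (col : Fin n → Fin n → ℕ) (x : Fin n) (c : ℕ) :
    Finset (Fin n) :=
  univ.filter fun z => A x z ∧ col x z = c

/-- the colours which are kept -/
def Ro (A : Fin n → Fin n → Prop) (col : Fin n → Fin n → ℕ) (x y : Fin n) : Prop :=
  A x y ∧ (A y x → ((cl A col y (col y x)).card < (cl A col x (col x y)).card ∨
    ((cl A col y (col y x)).card = (cl A col x (col x y)).card ∧ y < x)))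

variable {A : Fin n → Fin n → Prop} {col χ : Fin n → Fin n → ℕ}

theorem mem_cl {x z : Fin n} {c : ℕ} : z ∈ cl A col x c ↔ A x z ∧ col x z = c := by
  unfold cl
  rw [mem_filter]
  simp

theorem Ro_ori (x y : Fin n) (h : Ro A col x y) : ¬ Ro A col y x := by
  rintro ⟨h1, h2⟩
  have h3 := h.2 h1
  have h4 := h2 h.1
  rcases h3 with h3 | h3 <;> rcases h4 with h4 | h4
  · omega
  · omega
  · omega
  · exact absurd (h3.2.trans h4.2) (lt_irrefl _)

theorem Ro_or {x y : Fin n} (hxy : x ≠ y) (h : A x y) : Ro A col x y ∨ Ro A col y x := by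
  by_cases h1 : A y x
  · rcases lt_trichotomy (cl A col y (col y x)).card (cl A col x (col x y)).card with h2 | h2 | h2
    · exact Or.inl ⟨h, fun _ => Or.inl h2⟩
    · rcases lt_or_gt_of_ne hxy with h3 | h3
      · exact Or.inr ⟨h1, fun _ => Or.inr ⟨h2.symm, h3⟩⟩
      · exact Or.inl ⟨h, fun _ => Or.inr ⟨h2, h3⟩⟩
    · exact Or.inr ⟨h1, fun _ => Or.inl h2⟩
  · exact Or.inl ⟨h, fun h2 => absurd h2 h1⟩

/-- the triples `((x, y), z)` such that `y`, `z` have the same colour at `x`, the colour of `y` at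
`x` is not kept and `z` has not the colour of `x` at `y` -/
noncomputable def lost (A : Fin n → Fin n → Prop) (col : Fin n → Fin n → ℕ) :
    Finset ((Fin n × Fin n) × Fin n) :=
  univ.filter fun p => A p.1.1 p.1.2 ∧ A p.1.1 p.2 ∧ p.2 ≠ p.1.2 ∧
    col p.1.1 p.2 = col p.1.1 p.1.2 ∧ ¬ (A p.1.2 p.2 ∧ col p.1.2 p.2 = col p.1.2 p.1.1) ∧
    Ro A col p.1.2 p.1.1

theorem mem_lost {x y z : Fin n} : ((x, y), z) ∈ lost A col ↔ A x y ∧ A x z ∧ z ≠ y ∧
    col x z = col x y ∧ ¬ (A y z ∧ col y z = col y x) ∧ Ro A col y x := by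
  unfold lost
  rw [mem_filter]
  simp

/-- two vertices with the same colour at a third: the triple is counted for the kept colours, or it
is lost -/
theorem cherry (hA : ∀ x, ¬ A x x) {e : Finset (Fin n)} {x y z : Fin n} (hx : x ∈ e) (hy : y ∈ e)
    (hz : z ∈ e) (hyz : y ≠ z) (h1 : A x y) (h2 : A x z) (hc : col x y = col x z) :
    (∃ x ∈ e, ∃ y ∈ e, ∃ z ∈ e, y ≠ z ∧ Ro A col x y ∧ Ro A col x z ∧ col x y = col x z) ∨
      ∃ x ∈ e, ∃ y ∈ e, ∃ z ∈ e, ((x, y), z) ∈ lost A col := by
  have hxy : x ≠ y := fun h => hA x (by rw [← h] at h1; exact h1)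
  have hxz : x ≠ z := fun h => hA x (by rw [← h] at h2; exact h2)
  -- the main case: `x → y` is not kept
  have key : ∀ y z : Fin n, y ∈ e → z ∈ e → y ≠ z → x ≠ y → x ≠ z → A x y → A x z →
      col x y = col x z → ¬ Ro A col x y →
      (∃ x ∈ e, ∃ y ∈ e, ∃ z ∈ e, y ≠ z ∧ Ro A col x y ∧ Ro A col x z ∧ col x y = col x z) ∨
      ∃ x ∈ e, ∃ y ∈ e, ∃ z ∈ e, ((x, y), z) ∈ lost A col := by
    intro y z hy hz hyz hxy hxz h1 h2 hc hn
    have r1 : Ro A col y x := (Ro_or hxy h1).resolve_left hn
    by_cases h3 : A y z ∧ col y z = col y x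
    · by_cases r2 : Ro A col y z
      · exact Or.inl ⟨y, hy, x, hx, z, hz, hxz, r1, r2, h3.2.symm⟩
      · have r3 : Ro A col z y := (Ro_or hyz h3.1).resolve_left r2
        by_cases h4 : A z x ∧ col z x = col z y
        · by_cases r4 : Ro A col z x
          · exact Or.inl ⟨z, hz, x, hx, y, hy, hxy, r4, r3, h4.2⟩
          · exfalso
            have r5 : Ro A col x z := (Ro_or hxz.symm h4.1).resolve_left r4
            have a1 := r1.2 h1
            have a2 := r3.2 h3.1
            have a3 := r5.2 h4.1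
            rw [← h3.2] at a1
            rw [← h4.2] at a2
            rw [← hc] at a3
            rcases a1 with a1 | a1 <;> rcases a2 with a2 | a2 <;> rcases a3 with a3 | a3
            all_goals omega
        · right
          refine ⟨y, hy, z, hz, x, hx, ?_⟩
          rw [mem_lost]
          exact ⟨h3.1, r1.1, hxz, h3.2.symm, h4, r3⟩
    · right
      refine ⟨x, hx, y, hy, z, hz, ?_⟩
      rw [mem_lost]
      exact ⟨h1, h2, hyz.symm, hc.symm, h3, r1⟩
  by_cases r1 : Ro A col x y
  · by_cases r2 : Ro A col x z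
    · exact Or.inl ⟨x, hx, y, hy, z, hz, hyz, r1, r2, hc⟩
    · exact key z y hz hy hyz.symm hxz hxy h2 h1 hc.symm r2
  · exact key y z hy hz hyz hxy hxz h1 h2 hc r1

/-- the vertices with the colour of `y` at `x` which have not the colour of `x` at `y` -/
noncomputable def pr (A : Fin n → Fin n → Prop) (col : Fin n → Fin n → ℕ) (x y : Fin n) :
    Finset (Fin n) :=
  univ.filter fun z => A x z ∧ z ≠ y ∧ col x z = col x y ∧ ¬ (A y z ∧ col y z = col y x)

theorem mem_pr {x y z : Fin n} : z ∈ pr A col x y ↔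
    A x z ∧ z ≠ y ∧ col x z = col x y ∧ ¬ (A y z ∧ col y z = col y x) := by
  unfold pr
  rw [mem_filter]
  simp

/-- the conflicts `((a, x), (y, b))` -/
noncomputable def conf (A : Fin n → Fin n → Prop) (col : Fin n → Fin n → ℕ) :
    Finset ((Fin n × Fin n) × (Fin n × Fin n)) :=
  univ.filter fun p => A p.1.2 p.2.1 ∧ A p.2.1 p.1.2 ∧ p.1.1 ∈ pr A col p.1.2 p.2.1 ∧
    p.2.2 ∈ pr A col p.2.1 p.1.2

theorem mem_conf {a x y b : Fin n} : ((a, x), (y, b)) ∈ conf A col ↔
    A x y ∧ A y x ∧ a ∈ pr A col x y ∧ b ∈ pr A col y x := by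
  unfold conf
  rw [mem_filter]
  simp

theorem cl_card (hA : ∀ x, ¬ A x x) {x y : Fin n} (h : A x y) :
    (cl A col x (col x y)).card =
      (cl A col x (col x y) ∩ cl A col y (col y x)).card + (pr A col x y).card + 1 := by
  have h1 : cl A col x (col x y) =
      insert y ((cl A col x (col x y) ∩ cl A col y (col y x)) ∪ pr A col x y) := by
    ext z
    rw [mem_insert, mem_union, mem_inter, mem_cl, mem_cl, mem_pr]
    constructor
    · rintro ⟨h1, h2⟩
      by_cases h3 : z = y
      · exact Or.inl h3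
      · right
        by_cases h4 : A y z ∧ col y z = col y x
        · exact Or.inl ⟨⟨h1, h2⟩, h4⟩
        · exact Or.inr ⟨h1, h3, h2, h4⟩
    · rintro (h1 | h1 | h1)
      · rw [h1]
        exact ⟨h, rfl⟩
      · exact h1.1
      · exact ⟨h1.1, h1.2.2.1⟩
  have h2 : y ∉ (cl A col x (col x y) ∩ cl A col y (col y x)) ∪ pr A col x y := by
    rw [mem_union, mem_inter, mem_cl, mem_cl, mem_pr]
    rintro (h1 | h1)
    · exact hA y h1.2.1
    · exact h1.2.1 rfl
  have h3 : Disjoint (cl A col x (col x y) ∩ cl A col y (col y x)) (pr A col x y) := by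
    rw [disjoint_left]
    intro z hz hz'
    rw [mem_inter, mem_cl, mem_cl] at hz
    rw [mem_pr] at hz'
    exact hz'.2.2.2 hz.2
  conv_lhs => rw [h1]
  rw [card_insert_of_notMem h2, card_union_of_disjoint h3]

theorem pr_le (hA : ∀ x, ¬ A x x) {x y : Fin n} (h : A x y) (hr : Ro A col y x) :
    (pr A col x y).card ≤ (pr A col y x).card := by
  have h0 := hr.2 h
  have h1 := cl_card (col := col) hA h
  have h2 := cl_card (col := col) hA hr.1
  rw [inter_comm] at h2
  omega

/-- the number of lost triples -/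
theorem lost_card (hA : ∀ x, ¬ A x x) :
    (lost A col).card ^ 2 ≤ n ^ 2 * (conf A col).card := by
  set B : Finset (Fin n × Fin n) := univ.filter fun p => A p.1 p.2 ∧ Ro A col p.2 p.1 with hB
  have h1 : (lost A col).card ≤ ∑ p ∈ B, (pr A col p.1 p.2).card := by
    rw [← card_sigma]
    apply card_le_card_of_injOn (fun q => ⟨q.1, q.2⟩)
    · rintro ⟨⟨x, y⟩, z⟩ hq
      have hq' := mem_coe.1 hq
      rw [mem_lost] at hq'
      apply mem_coe.2
      rw [mem_sigma]
      refine ⟨mem_filter.2 ⟨mem_univ _, hq'.1, hq'.2.2.2.2.2⟩, ?_⟩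
      rw [mem_pr]
      exact ⟨hq'.2.1, hq'.2.2.1, hq'.2.2.2.1, hq'.2.2.2.2.1⟩
    · rintro ⟨⟨x, y⟩, z⟩ _ ⟨⟨x', y'⟩, z'⟩ _ h
      simp only [Sigma.mk.injEq, Prod.mk.injEq, heq_eq_eq] at h
      obtain ⟨⟨rfl, rfl⟩, rfl⟩ := h
      rfl
  have h2 : ∑ p ∈ B, (pr A col p.1 p.2).card ^ 2 ≤ (conf A col).card := by
    calc ∑ p ∈ B, (pr A col p.1 p.2).card ^ 2
        ≤ ∑ p ∈ B, ((pr A col p.1 p.2) ×ˢ (pr A col p.2 p.1)).card := by
          apply sum_le_sum
          intro p hp
          rw [card_product, sq]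
          have hp' := (mem_filter.1 hp).2
          exact Nat.mul_le_mul_left _ (pr_le hA hp'.1 hp'.2)
      _ ≤ (conf A col).card := by
          rw [← card_sigma]
          apply card_le_card_of_injOn (fun q => ((q.2.1, q.1.1), (q.1.2, q.2.2)))
          · rintro ⟨⟨x, y⟩, ⟨z, u⟩⟩ hq
            have hq' := mem_coe.1 hq
            rw [mem_sigma, mem_product] at hq'
            simp only at hq'
            obtain ⟨hp, h3, h4⟩ := hq'
            have hp' := (mem_filter.1 hp).2
            simp only at hp'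
            apply mem_coe.2
            simp only
            rw [mem_conf]
            exact ⟨hp'.1, hp'.2.1, h3, h4⟩
          · rintro ⟨⟨x, y⟩, ⟨z, u⟩⟩ _ ⟨⟨x', y'⟩, ⟨z', u'⟩⟩ _ h
            simp only [Prod.mk.injEq] at h
            obtain ⟨⟨rfl, rfl⟩, ⟨rfl, rfl⟩⟩ := h
            rfl
  have h3 : (∑ p ∈ B, (pr A col p.1 p.2).card) ^ 2 ≤
      B.card * ∑ p ∈ B, (pr A col p.1 p.2).card ^ 2 := sq_sum_le_card_mul_sum_sq
  have h4 : B.card ≤ n ^ 2 := by
    refine (card_filter_le _ _).trans ?_
    rw [card_univ, Fintype.card_prod, Fintype.card_fin, sq]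
  calc (lost A col).card ^ 2 ≤ (∑ p ∈ B, (pr A col p.1 p.2).card) ^ 2 := Nat.pow_le_pow_left h1 2
    _ ≤ B.card * ∑ p ∈ B, (pr A col p.1 p.2).card ^ 2 := h3
    _ ≤ n ^ 2 * (conf A col).card := Nat.mul_le_mul h4 h2

/-- the triples counted for the kept colours are counted -/
theorem tri_of (e : Finset (Fin n)) (h : Tri (Ro A col) col χ e) : Tri A col χ e := by
  rcases h with ⟨x, hx, y, hy, z, hz, hyz, h1, h2, h3⟩ | ⟨c, hc⟩
  · exact Or.inl ⟨x, hx, y, hy, z, hz, hyz, h1.1, h2.1, h3⟩
  · right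
    refine ⟨c, fun x hx y hy hxy => ⟨fun h => ?_, (hc x hx y hy hxy).2⟩⟩
    rcases Ro_or (col := col) hxy h with h1 | h1
    · exact (hc x hx y hy hxy).1 h1
    · exact (hc y hy x hx hxy.symm).1 h1

theorem tri_to (hA : ∀ x, ¬ A x x) (e : Finset (Fin n)) (h : Tri A col χ e) :
    Tri (Ro A col) col χ e ∨ ∃ x ∈ e, ∃ y ∈ e, ∃ z ∈ e, ((x, y), z) ∈ lost A col := by
  rcases h with ⟨x, hx, y, hy, z, hz, hyz, h1, h2, h3⟩ | ⟨c, hc⟩
  · rcases cherry hA hx hy hz hyz h1 h2 h3 with h | h
    · exact Or.inl (Or.inl h)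
    · exact Or.inr h
  · left
    right
    exact ⟨c, fun x hx y hy hxy => ⟨fun h => (hc x hx y hy hxy).1 h.1, (hc x hx y hy hxy).2⟩⟩

/-- the sets of four vertices without a counted triple -/
noncomputable def unc (A : Fin n → Fin n → Prop) (col χ : Fin n → Fin n → ℕ) :
    Finset (Finset (Fin n)) :=
  (univ.powersetCard 4).filter fun Q : Finset (Fin n) => ¬ ∃ e ⊆ Q, e.card = 3 ∧ Tri A col χ e

theorem mem_unc {Q : Finset (Fin n)} : Q ∈ unc A col χ ↔ Q.card = 4 ∧
    ¬ ∃ e ⊆ Q, e.card = 3 ∧ Tri A col χ e := by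
  unfold unc
  rw [mem_filter, mem_powersetCard]
  simp only [subset_univ, true_and]

theorem bad_card (hA : ∀ x, ¬ A x x) :
    (unc (Ro A col) col χ).card ≤ (unc A col χ).card + (lost A col).card * n := by
  have h1 : unc (Ro A col) col χ ⊆ unc A col χ ∪
      ((lost A col) ×ˢ (univ : Finset (Fin n))).image
      fun p => {p.1.1.1, p.1.1.2, p.1.2, p.2} := by
    intro Q hQ
    rw [mem_unc] at hQ
    rw [mem_union, mem_unc]
    by_cases h : ∃ e ⊆ Q, e.card = 3 ∧ Tri A col χ e
    · right
      obtain ⟨e, heQ, he3, he⟩ := h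
      rcases tri_to hA e he with h1 | ⟨x, hx, y, hy, z, hz, hl⟩
      · exact absurd ⟨e, heQ, he3, h1⟩ hQ.2
      · have hx := heQ hx
        have hy := heQ hy
        have hz := heQ hz
        have hl' := mem_lost.1 hl
        have hxy : x ≠ y := fun h => hA x (by have := hl'.1; rw [← h] at this; exact this)
        have hxz : x ≠ z := fun h => hA x (by have := hl'.2.1; rw [← h] at this; exact this)
        have hyz : y ≠ z := fun h => hl'.2.2.1 h.symm
        have h2 : (((Q.erase x).erase y).erase z).card = 1 := by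
          rw [card_erase_of_mem, card_erase_of_mem, card_erase_of_mem hx, hQ.1]
          · exact mem_erase.2 ⟨hxy.symm, hy⟩
          · exact mem_erase.2 ⟨hyz.symm, mem_erase.2 ⟨hxz.symm, hz⟩⟩
        obtain ⟨w, hw⟩ := card_eq_one.1 h2
        rw [mem_image]
        refine ⟨(((x, y), z), w), mem_product.2 ⟨hl, mem_univ _⟩, ?_⟩
        have hw' : w ∈ ((Q.erase x).erase y).erase z := by
          rw [hw]
          simp
        simp only [mem_erase] at hw'
        apply eq_of_subset_of_card_le
        · intro v hv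
          simp only [mem_insert, mem_singleton] at hv
          rcases hv with rfl | rfl | rfl | rfl
          · exact hx
          · exact hy
          · exact hz
          · exact hw'.2.2.2
        · rw [hQ.1, card_insert_of_notMem, card_insert_of_notMem, card_insert_of_notMem,
            card_singleton]
          · simp only [mem_singleton]
            exact fun h => hw'.1 h.symm
          · simp only [mem_insert, mem_singleton]
            rintro (h | h)
            · exact hyz h
            · exact hw'.2.1 h.symm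
          · simp only [mem_insert, mem_singleton]
            rintro (h | h | h)
            · exact hxy h
            · exact hxz h
            · exact hw'.2.2.1 h.symm
    · exact Or.inl ⟨hQ.1, h⟩
  refine (card_le_card h1).trans ((card_union_le _ _).trans ?_)
  refine Nat.add_le_add_left (card_image_le.trans ?_) _
  rw [card_product, card_univ, Fintype.card_fin]

/-- the exact bound on a set in which the kept colours suffice -/
theorem on_good (hs : ∀ x y, χ x y = χ y x) (S : Finset (Fin n))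
    (hS : ∀ Q ∈ unc (Ro A col) col χ, ¬ Q ⊆ S) :
    Pool.Agent.N439.CT.turan S.card ≤ ((T A col χ).filter fun e => e ⊆ S).card := by
  have h := exact_on (Ro_ori (A := A) (col := col)) (col := col) hs (S := S) (by
    intro Q hQ hQ4
    by_contra hcon
    exact hS Q (mem_unc.2 ⟨hQ4, hcon⟩) hQ)
  refine h.trans (card_le_card ?_)
  intro e he
  rw [mem_filter, mem_T] at he
  rw [mem_filter, mem_T]
  exact ⟨⟨he.1.1, tri_of e he.1.2⟩, he.2⟩

theorem lost_empty (hA : ∀ x, ¬ A x x) (hc : conf A col = ∅) : lost A col = ∅ := by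
  have h1 := lost_card (col := col) hA
  rw [hc, card_empty, mul_zero] at h1
  have h2 := pow_eq_zero_iff (two_ne_zero) |>.1 (Nat.le_zero.1 h1)
  exact card_eq_zero.1 h2

/-- **The exact bound for local colourings without conflicts**, on a set of vertices. -/
theorem exactL_on (hA : ∀ x, ¬ A x x) (hs : ∀ x y, χ x y = χ y x) (hc : conf A col = ∅)
    {S : Finset (Fin n)}
    (hcov : ∀ Q ⊆ S, Q.card = 4 → ∃ e ⊆ Q, e.card = 3 ∧ Tri A col χ e) :
    Pool.Agent.N439.CT.turan S.card ≤ ((T A col χ).filter fun e => e ⊆ S).card := by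
  have h0 := lost_empty (col := col) hA hc
  apply on_good hs S
  intro Q hQ hQS
  rw [mem_unc] at hQ
  obtain ⟨e, heQ, he3, he⟩ := hcov Q hQS hQ.1
  rcases tri_to hA e he with h1 | ⟨x, _, y, _, z, _, hl⟩
  · exact hQ.2 ⟨e, heQ, he3, h1⟩
  · rw [h0] at hl
    simp at hl

/-- **The exact bound for local colourings without conflicts.** -/
theorem exactL (hA : ∀ x, ¬ A x x) (hs : ∀ x y, χ x y = χ y x) (hc : conf A col = ∅)
    (hcov : ∀ Q : Finset (Fin n), Q.card = 4 → ∃ e ⊆ Q, e.card = 3 ∧ Tri A col χ e) :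
    Pool.Agent.N439.CT.turan n ≤ (T A col χ).card := by
  have h := exactL_on (S := univ) hA hs hc (fun Q _ h => hcov Q h)
  rw [card_univ, Fintype.card_fin] at h
  exact h.trans (card_le_card (filter_subset _ _))

/-- **The asymptotic bound for local colourings with few conflicts.** -/
theorem robustL (ε : ℝ) (hε : 0 < ε) : ∃ δ : ℝ, 0 < δ ∧ ∃ n₀ : ℕ, ∀ n : ℕ, n₀ ≤ n →
    ∀ (A : Fin n → Fin n → Prop) (col χ : Fin n → Fin n → ℕ),
    (∀ x, ¬ A x x) → (∀ x y, χ x y = χ y x) →
    ((unc A col χ).card : ℝ) ≤ δ * (n : ℝ) ^ 4 → ((conf A col).card : ℝ) ≤ δ * (n : ℝ) ^ 4 →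
    (4 / 9 - ε) * (n.choose 3 : ℝ) ≤ ((T A col χ).card : ℝ) := by
  obtain ⟨η, hη0, hη1, n₀, h⟩ := averaged ε hε
  refine ⟨η ^ 2, by positivity, n₀, ?_⟩
  intro n hn A col χ hA hs hu hp
  have hl : ((lost A col).card : ℝ) ≤ η * (n : ℝ) ^ 3 := by
    have h1 : ((lost A col).card : ℝ) ^ 2 ≤ (n : ℝ) ^ 2 * ((conf A col).card : ℝ) := by
      exact_mod_cast lost_card (col := col) hA
    apply le_of_sq_le_sq _ (by positivity)
    calc ((lost A col).card : ℝ) ^ 2
        ≤ (n : ℝ) ^ 2 * ((conf A col).card : ℝ) := h1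
      _ ≤ (n : ℝ) ^ 2 * (η ^ 2 * (n : ℝ) ^ 4) := by gcongr
      _ = (η * (n : ℝ) ^ 3) ^ 2 := by ring
  have hb : ((unc (Ro A col) col χ).card : ℝ) ≤ 2 * η * (n : ℝ) ^ 4 := by
    have h1 : ((unc (Ro A col) col χ).card : ℝ) ≤
        ((unc A col χ).card : ℝ) + ((lost A col).card : ℝ) * n := by
      exact_mod_cast bad_card (χ := χ) hA
    have h2 : η ^ 2 ≤ η := by nlinarith
    calc ((unc (Ro A col) col χ).card : ℝ) ≤ _ := h1
      _ ≤ η ^ 2 * (n : ℝ) ^ 4 + η * (n : ℝ) ^ 3 * n := by gcongr
      _ ≤ η * (n : ℝ) ^ 4 + η * (n : ℝ) ^ 3 * n := by gcongr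
      _ = _ := by ring
  exact h n hn _ (unc (Ro A col) col χ) (fun e he => (mem_T.1 he).1) (fun Q hQ => (mem_unc.1 hQ).1)
    (fun S hS => on_good hs S hS) hb

end Pool.Agent.Run7.h804.LP
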